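import Pool.Agent.H.MP_56c207_gt.Fan

open Set Topology Filter

namespace Pool.Agent.H.MP_2a55c9_gt
open Pool.Agent.H.MP_211c6f_gt Pool.Agent.H.MP_56c207_gt

abbrev Bl (κ : Type) : Type := Option (ℤ × ℕ) × κ

noncomputable def xx (n : ℤ) : ℝ := (1 / 2 : ℝ) ^ ((2 : ℝ) ^ n)

lemma xx_pos (n : ℤ) : 0 < xx n := Real.rpow_pos_of_pos (by norm_num) _
lemma xx_lt (n : ℤ) : xx n < 1 := Real.rpow_lt_one (by norm_num) (by norm_num) (by positivity)
lemma xx_anti {m n : ℤ} (h : m ≤ n) : xx n ≤ xx m :=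
  Real.rpow_le_rpow_of_exponent_ge (by norm_num) (by norm_num) (zpow_le_zpow_right₀ (by norm_num) h)
lemma xx_pow (n m : ℤ) : xx n ^ ((2 : ℝ) ^ m) = xx (n + m) := by
  rw [xx, xx, ← Real.rpow_mul (by norm_num), zpow_add₀ (by norm_num)]
lemma xx_zero : xx 0 = 1 / 2 := by simp [xx]
lemma xx_one : xx 1 = 1 / 4 := by norm_num [xx]
lemma xx_tend : Tendsto (fun j : ℕ => xx (-j)) atTop (𝓝 1) := by
  have h1 : Tendsto (fun j : ℕ => (2 : ℝ) ^ (-j : ℤ)) atTop (𝓝 0) := by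
    simpa using tendsto_pow_atTop_nhds_zero_of_lt_one (r := (2 : ℝ)⁻¹) (by norm_num) (by norm_num)
  simpa [xx, Function.comp_def] using ((Real.continuous_const_rpow (a := 1 / 2) (by norm_num)).tendsto 0).comp h1
lemma exists_xx {r : ℝ} (h0 : 0 < r) (h1 : r < 1) : ∃ n, xx (n + 1) < r ∧ r ≤ xx n := by
  have h2 : r = (1 / 2 : ℝ) ^ (Real.logb (1 / 2) r) :=
    (Real.rpow_logb (by norm_num) (by norm_num) h0).symm
  obtain ⟨n, h3, h4⟩ := exists_mem_Ico_zpow
    (Real.logb_pos_of_base_lt_one (b := 1 / 2) (by norm_num) (by norm_num) h0 h1) one_lt_two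
  refine ⟨n, ?_, ?_⟩ <;> rw [h2, xx]
  · exact Real.rpow_lt_rpow_of_exponent_gt (by norm_num) (by norm_num) h4
  · exact Real.rpow_le_rpow_of_exponent_ge (by norm_num) (by norm_num) h3

lemma pow_pow {r : ℝ} (h : 0 ≤ r) (m : ℤ) : (r ^ ((2 : ℝ) ^ m)) ^ ((2 : ℝ) ^ (-m)) = r := by
  rw [← Real.rpow_mul h, ← zpow_add₀ (by norm_num)]
  simp

lemma exists_bump {a b u u' : ℝ} (hu : u ∈ Ioo a b) (hu' : u' ∈ Ioo a b) :
    ∃ g : ℝ ≃o ℝ, g u = u' ∧ ∀ r, r ≤ a ∨ b ≤ r → g r = r := by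
  wlog h : u ≤ u' generalizing u u'
  · obtain ⟨g, h1, h2⟩ := this hu' hu (le_of_not_ge h)
    exact ⟨g.symm, by rw [← h1]; simp, fun r hr => by rw [OrderIso.symm_apply_eq, h2 r hr]⟩
  have p1 : 0 < u - a := sub_pos.2 hu.1
  have p2 : 0 < b - u := sub_pos.2 hu.2
  obtain ⟨s1, h1, h1'⟩ : ∃ s1 : ℝ, 1 ≤ s1 ∧ (u - a) * s1 = u' - a :=
    ⟨(u' - a) / (u - a), (one_le_div p1).2 (by linarith), by field_simp⟩
  obtain ⟨s2, h2, h2', h2''⟩ : ∃ s2 : ℝ, 0 < s2 ∧ s2 ≤ 1 ∧ (b - u) * s2 = b - u' :=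
    ⟨(b - u') / (b - u), div_pos (sub_pos.2 hu'.2) p2, (div_le_one p2).2 (by linarith),
      by field_simp⟩
  let g : ℝ → ℝ := fun r => max r (min (a + (r - a) * s1) (b - (b - r) * s2))
  have hm : StrictMono g := fun r r' hr => max_lt_max hr (min_lt_min (by nlinarith) (by nlinarith))
  have hid : ∀ r, r ≤ a ∨ b ≤ r → g r = r := by
    rintro r (hr | hr)
    · exact max_eq_left ((min_le_left _ _).trans (by nlinarith))
    · exact max_eq_left ((min_le_right _ _).trans (by nlinarith))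
  have hs : Function.Surjective g := Continuous.surjective (by fun_prop)
    (tendsto_id.congr' ((eventually_ge_atTop b).mono fun r hr => (hid r (Or.inr hr)).symm))
    (tendsto_id.congr' ((eventually_le_atBot a).mono fun r hr => (hid r (Or.inl hr)).symm))
  refine ⟨hm.orderIsoOfSurjective g hs, ?_, hid⟩
  show max u (min _ _) = u'
  rw [h1', h2'']
  simp [h]

variable {κ : Type}

noncomputable def hh (b : Bl κ) : ℝ := b.1.elim 1 fun p => xx p.1
lemma hh_pos (b : Bl κ) : 0 < hh b := by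
  rcases b with ⟨_ | p, c⟩
  exacts [one_pos, xx_pos _]
lemma hh_le (b : Bl κ) : hh b ≤ 1 := by
  rcases b with ⟨_ | p, c⟩
  exacts [le_rfl, (xx_lt _).le]

open Classical in
noncomputable def dir (b : Bl κ) : V (Bl κ) := (1, fun i => if i = b ∨ i = (none, b.2) then 1 else 0)

def Phi (κ : Type) : Set (V (Bl κ)) := {x | ∃ b, ∃ r ∈ Icc 0 (hh b), r • dir b = x}

lemma dir_inj {r r' : ℝ} {b b' : Bl κ} (h : r • dir b = r' • dir b') :
    r = r' ∧ (r = 0 ∨ b = b') := by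
  have h1 : r = r' := by simpa [dir] using congrArg Prod.fst h
  subst h1
  refine ⟨rfl, or_iff_not_imp_left.2 fun h0 => ?_⟩
  have h2 := congrArg Prod.snd (smul_right_injective _ h0 h)
  have h3 : b = b' ∨ b = (none, b'.2) := by simpa [dir, or_iff_not_imp_left] using congrFun h2 b
  have h4 : b' = b ∨ b' = (none, b.2) := by
    simpa [dir, or_iff_not_imp_left] using (congrFun h2 b').symm
  rcases h3 with h3 | h3
  · exact h3
  rcases h4 with h4 | h4
  · exact h4.symm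
  rw [h3, h4, h3]

lemma dir_tend {b : ℕ → Bl κ} {c : κ} (h1 : ∀ n, (b n).2 = c) (h2 : ∀ i, ∀ᶠ n in atTop, b n ≠ i) :
    Tendsto (fun n => dir (b n)) atTop (𝓝 (dir (none, c))) := by
  refine tendsto_const_nhds.prodMk_nhds (tendsto_pi_nhds.2 fun i => tendsto_const_nhds.congr' ?_)
  filter_upwards [h2 i] with n hn
  have : i = b n ∨ i = (none, (b n).2) ↔ i = (none, c) ∨ i = (none, c) := by simp [h1, hn.symm]
  show (dir (none, c)).2 i = (dir (b n)).2 i
  simp only [dir]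
  by_cases h3 : i = (none, c) ∨ i = (none, c)
  · rw [if_pos h3, if_pos (this.2 h3)]
  · rw [if_neg h3, if_neg (mt this.1 h3)]

lemma cone [Finite κ] [Nonempty κ] : Cone (Phi κ) where
  cpt := by
    refine IsSeqCompact.isCompact fun x hx => ?_
    choose b r hr h using hx
    obtain ⟨r0, h0, ψ, h1, h2⟩ := isCompact_Icc.tendsto_subseq (x := r)
      fun n => ⟨(hr n).1, (hr n).2.trans (hh_le _)⟩
    by_cases h3 : ∃ i, ∃ᶠ n in atTop, b (ψ n) = i
    · obtain ⟨i, h3⟩ := h3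
      obtain ⟨φ, h4, h5⟩ := extraction_of_frequently_atTop h3
      have h6 := h2.comp h4.tendsto_atTop
      refine ⟨_, ⟨i, r0, isClosed_Icc.mem_of_tendsto h6 (Eventually.of_forall fun n => ?_), rfl⟩,
        ψ ∘ φ, h1.comp h4, (h6.smul_const _).congr fun n => ?_⟩
      · rw [← h5 n]
        exact hr _
      · rw [← h5 n]
        exact h _
    · push Not at h3
      obtain ⟨c, hc⟩ : ∃ c, ∃ᶠ n in atTop, (b (ψ n)).2 = c :=
        frequently_exists.1 (Frequently.of_forall fun n => ⟨_, rfl⟩)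
      obtain ⟨φ, h4, h5⟩ := extraction_of_frequently_atTop hc
      exact ⟨_, ⟨(none, c), r0, h0, rfl⟩, ψ ∘ φ, h1.comp h4,
        ((h2.comp h4.tendsto_atTop).smul (dir_tend h5 fun i =>
          h4.tendsto_atTop.eventually (h3 i))).congr fun n => h _⟩
  zero := ⟨(none, Classical.arbitrary κ), 0, ⟨le_rfl, (hh_pos _).le⟩, zero_smul _ _⟩
  nonneg := by
    rintro _ ⟨b, r, hr, rfl⟩
    simpa [dir] using hr.1
  coord := by
    rintro _ ⟨b, r, hr, rfl⟩ i
    simp only [dir, Prod.smul_snd, Pi.smul_apply, Prod.smul_fst]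
    split_ifs <;> simp
  star := by
    rintro _ ⟨b, r, hr, rfl⟩ s hs
    exact ⟨b, s * r, ⟨mul_nonneg hs.1 hr.1, (mul_le_of_le_one_left hr.1 hs.2).trans hr.2⟩,
      (smul_smul _ _ _).symm⟩

noncomputable def pt (b : Bl κ) (r : ℝ) (h : r ∈ Icc 0 (hh b)) : Phi κ := ⟨r • dir b, b, r, h, rfl⟩
noncomputable def en (b : Bl κ) : Phi κ := pt b (hh b) ⟨(hh_pos b).le, le_rfl⟩

lemma en_NP {b b' : Bl κ} (h : b ≠ b') : NP (en b).1 (en b').1 := by
  intro r r' h1
  simp only [en, pt, smul_smul] at h1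
  obtain ⟨h2, h3⟩ := dir_inj h1
  have h4 := h3.resolve_right h
  exact ⟨(mul_eq_zero.1 h4).resolve_right (hh_pos _).ne',
    (mul_eq_zero.1 (h2 ▸ h4)).resolve_right (hh_pos _).ne'⟩

lemma exists_three [Nonempty κ] : ∃ p : Fin 3 → Phi κ, ∀ i j, i ≠ j → NP (p i).1 (p j).1 :=
  ⟨fun i => en (some (0, i.1), Classical.arbitrary κ), fun i j hij => en_NP fun h =>
    hij (Fin.ext (by simpa using h))⟩

section
variable [Finite κ] [Nonempty κ]

lemma mem_ends {b : Bl κ} {r : ℝ} (h : r ∈ Icc 0 (hh b)) : pt b r h ∈ Ends (Phi κ) ↔ r = hh b := by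
  rw [ends_iff cone (en_NP (b := (none, b.2)) (b' := (some (0, 0), b.2)) (by simp))]
  have h4 := hh_pos b
  constructor
  · rintro ⟨h0, h1⟩
    by_contra h2
    have h3 : 0 < r := lt_of_le_of_ne h.1 (by rintro rfl; exact h0 (zero_smul _ _))
    refine h1 (hh b / r) ((one_lt_div h3).2 (lt_of_le_of_ne h.2 h2)) ⟨b, hh b, ⟨h4.le, le_rfl⟩, ?_⟩
    rw [pt, smul_smul, div_mul_cancel₀ _ h3.ne']
  · rintro rfl
    refine ⟨fun h5 => h4.ne' (by simpa [pt, dir] using congrArg Prod.fst h5), ?_⟩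
    rintro s hs ⟨b', r, hr, h5⟩
    rw [pt, smul_smul] at h5
    obtain ⟨h1, h2 | rfl⟩ := dir_inj h5
    · nlinarith
    · nlinarith [hr.2]

def Free {X : Type} [TopologicalSpace X] (t x : X) : Prop :=
  ∃ U ∈ 𝓝 x, IsPreconnected U ∧ t ∉ U

lemma free_some {p : ℤ × ℕ} {c : κ} {r : ℝ} (h : r ∈ Icc 0 (hh (some p, c))) (h0 : 0 < r) :
    Free (top cone) (pt (some p, c) r h) := by
  refine ⟨{y | 0 < y.1.2 (some p, c)}, (isOpen_lt continuous_const (by fun_prop)).mem_nhds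
    (by simpa [pt, dir] using h0), ?_, by simp [top]⟩
  rw [← IsInducing.subtypeVal.isPreconnected_image]
  convert (isPreconnected_Ioc (a := 0) (b := hh (some p, c))).image
    (fun s : ℝ => s • dir (some p, c)) (by fun_prop) using 1
  ext y
  constructor
  · rintro ⟨⟨_, b, s, hs, rfl⟩, h1, rfl⟩
    by_cases h2 : (some p, c) = b
    · subst h2
      exact ⟨s, ⟨by simpa [dir] using h1, hs.2⟩, rfl⟩
    · simp [dir, h2] at h1
  · rintro ⟨s, hs, rfl⟩
    exact ⟨pt _ s ⟨hs.1.le, hs.2⟩, by simpa [pt, dir] using hs.1, rfl⟩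

lemma not_free {c : κ} {r : ℝ} (h : r ∈ Icc 0 (hh ((none, c) : Bl κ))) :
    ¬ Free (top cone) (pt (none, c) r h) := by
  rintro ⟨U, h1, h2, h3⟩
  have hm : ∀ j : ℕ, r * xx (-j) ∈ Icc 0 (hh ((some (-j, j), c) : Bl κ)) := fun j =>
    ⟨mul_nonneg h.1 (xx_pos _).le, mul_le_of_le_one_left (xx_pos _).le h.2⟩
  have h4 : Tendsto (fun j : ℕ => pt _ _ (hm j)) atTop (𝓝 (pt (none, c) r h)) := by
    rw [tendsto_subtype_rng]
    refine Tendsto.smul (by simpa using xx_tend.const_mul r) (dir_tend (fun _ => rfl) ?_)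
    rintro ⟨_ | ⟨n, k⟩, c'⟩
    · simp
    · filter_upwards [eventually_gt_atTop k] with j hj h5
      simp at h5
      omega
  obtain ⟨j, hj⟩ := (h4.eventually h1).exists
  have h0 : (0 : V (Bl κ)) ∉ Subtype.val '' U := by
    rintro ⟨y, h5, h6⟩
    exact h3 (by rwa [show y = top cone from Subtype.ext h6] at h5)
  have h5 := cone.leg (Subtype.coe_image_subset _ _) (h2.image _ continuous_subtype_val.continuousOn)
    h0 ⟨_, mem_of_mem_nhds h1, rfl⟩ ⟨_, hj, rfl⟩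
  simp only [pt, smul_smul] at h5
  rcases (dir_inj h5).2 with h6 | h6
  · exact h0 ⟨_, hj, by simp [pt, h6]⟩
  · simp at h6

lemma mark_der (c : κ) {h : (1 / 2 : ℝ) ∈ Icc 0 (hh ((none, c) : Bl κ))} :
    pt (none, c) (1 / 2) h ∈ Der (Ends (Phi κ)) := by
  refine mem_closure_of_tendsto (f := fun j : ℕ => en (some (0, j), c)) (b := atTop) ?_
    (Eventually.of_forall fun j => ⟨(mem_ends _).2 rfl, fun h1 => ?_⟩)
  · rw [tendsto_subtype_rng]
    refine Tendsto.smul (by simp [hh, xx_zero]) (dir_tend (fun _ => rfl) ?_)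
    rintro ⟨_ | ⟨n, k⟩, c'⟩
    · simp
    · filter_upwards [eventually_gt_atTop k] with j hj h5
      simp at h5
      omega
  · simpa [(hh_pos _).ne'] using (dir_inj (congrArg Subtype.val h1)).2

omit [Finite κ] [Nonempty κ] in
lemma hh_gap (b : Bl κ) : hh b ≤ 1 / 4 ∨ 1 / 2 ≤ hh b := by
  rcases b with ⟨_ | ⟨n, j⟩, c⟩
  · exact Or.inr (by norm_num [hh])
  · rcases le_or_gt n 0 with h | h
    · exact Or.inr (xx_zero ▸ xx_anti h)
    · exact Or.inl (xx_one ▸ xx_anti h)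

lemma not_der (c : κ) {h : (3 / 8 : ℝ) ∈ Icc 0 (hh ((none, c) : Bl κ))} :
    pt (none, c) (3 / 8) h ∉ Der (Ends (Phi κ)) := by
  intro h1
  have h2 : IsClosed ({y : Phi κ | y.1.1 ≤ 1 / 4} ∪ {y | 1 / 2 ≤ y.1.1}) :=
    (isClosed_le (by fun_prop) continuous_const).union (isClosed_le continuous_const (by fun_prop))
  have h3 := closure_minimal (by
    rintro ⟨_, b, r, hr, rfl⟩ hy
    obtain rfl := (mem_ends hr).1 hy.1
    simpa [dir] using hh_gap b) h2 h1
  norm_num [pt, dir] at h3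

end

end Pool.Agent.H.MP_2a55c9_gt
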