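import Pool.Agent.H.MP_2a55c9_gt.A

open Set Topology Filter

namespace Pool.Agent.H.MP_2a55c9_gt
open Pool.Agent.H.MP_211c6f_gt Pool.Agent.H.MP_56c207_gt

variable {κ : Type}

def Rel (x y : V (Bl κ)) : Prop := ∃ e : Phi κ ≃ₜ Phi κ, ∀ z : Phi κ, z.1 = x → (e z).1 = y

lemma Rel.trans {x y z : V (Bl κ)} (h : Rel x y) (h' : Rel y z) : Rel x z := by
  obtain ⟨e, he⟩ := h
  obtain ⟨e', he'⟩ := h'
  exact ⟨e.trans e', fun w hw => he' _ (he w hw)⟩

lemma mk_homeo {F G : V (Bl κ) → V (Bl κ)} (hF : Continuous F) (hG : Continuous G)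
    (h1 : ∀ b, ∀ r ∈ Icc 0 (hh b), F (r • dir b) ∈ Phi κ ∧ G (F (r • dir b)) = r • dir b)
    (h2 : ∀ b, ∀ r ∈ Icc 0 (hh b), G (r • dir b) ∈ Phi κ ∧ F (G (r • dir b)) = r • dir b)
    (x : V (Bl κ)) : Rel x (F x) := by
  have k1 : ∀ x : Phi κ, F x.1 ∈ Phi κ ∧ G (F x.1) = x.1 := by
    rintro ⟨_, b, r, hr, rfl⟩
    exact h1 b r hr
  have k2 : ∀ x : Phi κ, G x.1 ∈ Phi κ ∧ F (G x.1) = x.1 := by
    rintro ⟨_, b, r, hr, rfl⟩
    exact h2 b r hr
  exact ⟨⟨⟨fun x => ⟨F x.1, (k1 x).1⟩, fun x => ⟨G x.1, (k2 x).1⟩, fun x => Subtype.ext (k1 x).2,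
    fun x => Subtype.ext (k2 x).2⟩, Continuous.subtype_mk (hF.comp continuous_subtype_val) _,
    Continuous.subtype_mk (hG.comp continuous_subtype_val) _⟩, fun z hz => congrArg F hz⟩

def FF (g : ℝ → ℝ) (π : Bl κ ≃ Bl κ) (x : V (Bl κ)) : V (Bl κ) :=
  (g x.1, fun i => g (x.2 (π.symm i)))

lemma FF_dir {g : ℝ → ℝ} (h0 : g 0 = 0) {π : Bl κ ≃ Bl κ}
    (hπ : ∀ b, π (none, b.2) = (none, (π b).2)) (b : Bl κ) (r : ℝ) :
    FF g π (r • dir b) = g r • dir (π b) := by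
  refine Prod.ext (by simp [FF, dir]) (funext fun i => ?_)
  have : π.symm i = b ∨ π.symm i = (none, b.2) ↔ i = π b ∨ i = (none, (π b).2) := by
    simp only [Equiv.symm_apply_eq, hπ]
  simp only [FF, dir, Prod.smul_snd, Pi.smul_apply]
  by_cases h3 : i = π b ∨ i = (none, (π b).2)
  · rw [if_pos h3, if_pos (this.2 h3)]
    simp
  · rw [if_neg h3, if_neg (mt this.1 h3)]
    simp [h0]

lemma rel_global {g g' : ℝ → ℝ} (hg : Continuous g) (hg' : Continuous g') (h0 : g 0 = 0)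
    (m : MonotoneOn g (Ici 0)) (m' : MonotoneOn g' (Ici 0))
    (i1 : ∀ r, 0 ≤ r → g' (g r) = r) (i2 : ∀ r, 0 ≤ r → g (g' r) = r) {π : Bl κ ≃ Bl κ}
    (hπ : ∀ b, π (none, b.2) = (none, (π b).2)) (hh' : ∀ b, g (hh b) = hh (π b)) (b : Bl κ)
    (r : ℝ) : Rel (r • dir b) (g r • dir (π b)) := by
  have h0' : g' 0 = 0 := by simpa [h0] using i1 0 le_rfl
  have hπ' : ∀ b, π.symm (none, b.2) = (none, (π.symm b).2) := fun b => by
    rw [Equiv.symm_apply_eq, hπ, Equiv.apply_symm_apply]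
  rw [← FF_dir h0 hπ]
  refine mk_homeo (G := FF g' π.symm) (by unfold FF; fun_prop) (by unfold FF; fun_prop)
    (fun b r hr => ?_) (fun b r hr => ?_) _
  · rw [FF_dir h0 hπ, FF_dir h0' hπ', i1 r hr.1, Equiv.symm_apply_apply]
    exact ⟨⟨_, _, ⟨h0 ▸ m self_mem_Ici hr.1 hr.1, hh' b ▸ m hr.1 (hh_pos b).le hr.2⟩, rfl⟩, rfl⟩
  · rw [FF_dir h0' hπ', FF_dir h0 hπ, i2 r hr.1, Equiv.apply_symm_apply]
    refine ⟨⟨_, _, ⟨h0' ▸ m' self_mem_Ici hr.1 hr.1, ?_⟩, rfl⟩, rfl⟩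
    rw [← i1 _ (hh_pos (π.symm b)).le, hh', Equiv.apply_symm_apply]
    exact m' hr.1 (hh_pos b).le hr.2

open Classical in
noncomputable def pm (m : ℤ) (j j' : ℕ) (c c' : κ) : Bl κ ≃ Bl κ :=
  ((Equiv.addRight m).prodCongr (Equiv.swap j j')).optionCongr.prodCongr (Equiv.swap c c')

lemma rel_shift (m : ℤ) (j j' : ℕ) (c c' : κ) (b : Bl κ) (r : ℝ) :
    Rel (r • dir b) ((r ^ ((2 : ℝ) ^ m)) • dir (pm m j j' c c' b)) := by
  refine rel_global (g := fun r => r ^ ((2 : ℝ) ^ m)) (g' := fun r => r ^ ((2 : ℝ) ^ (-m)))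
    (Real.continuous_rpow_const (by positivity)) (Real.continuous_rpow_const (by positivity))
    (Real.zero_rpow (by positivity))
    (fun x hx y _ h => Real.rpow_le_rpow hx h (by positivity))
    (fun x hx y _ h => Real.rpow_le_rpow hx h (by positivity))
    (fun r hr => pow_pow hr m) (fun r hr => by simpa using pow_pow hr (-m))
    (fun b => by simp [pm]) ?_ b r
  rintro ⟨_ | ⟨n, k⟩, d⟩
  · simp [hh, pm]
  · simp [hh, pm, xx_pow]

lemma rel_bump (b : Bl κ) {r : ℝ} (hr : r ∈ Ioo (1 / 4 : ℝ) (1 / 2)) :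
    Rel ((3 / 8 : ℝ) • dir b) (r • dir b) := by
  obtain ⟨g, h1, h2⟩ := exists_bump (u := 3 / 8) (by norm_num) hr
  rw [← h1]
  exact rel_global (π := Equiv.refl _) g.continuous g.symm.continuous (h2 0 (by norm_num))
    (g.monotone.monotoneOn _) (g.symm.monotone.monotoneOn _) (by simp) (by simp) (by simp)
    (fun b => h2 _ (hh_gap b)) b _

noncomputable def GG (g : ℝ → ℝ) (b : Bl κ) (x : V (Bl κ)) : V (Bl κ) :=
  x + (g (x.2 b) - x.2 b) • dir b

lemma GG_self (g : ℝ → ℝ) (b : Bl κ) (r : ℝ) : GG g b (r • dir b) = g r • dir b := by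
  have : (r • dir b).2 b = r := by simp [dir]
  rw [GG, this, ← add_smul, add_sub_cancel]

lemma GG_ne {g : ℝ → ℝ} (h0 : g 0 = 0) {p : ℤ × ℕ} {c : κ} {b : Bl κ} (h : (some p, c) ≠ b)
    (r : ℝ) : GG g (some p, c) (r • dir b) = r • dir b := by
  have : (r • dir b).2 (some p, c) = 0 := by simp [dir, h]
  rw [GG, this, h0, sub_self, zero_smul, add_zero]

lemma rel_blade (c : κ) {r : ℝ} (hr : r ∈ Ioo (0 : ℝ) (1 / 2)) :
    Rel ((1 / 4 : ℝ) • dir (some (0, 0), c)) (r • dir (some (0, 0), c)) := by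
  obtain ⟨g, h1, h2⟩ := exists_bump (u := 1 / 4) (by norm_num) hr
  rw [← h1, ← GG_self g]
  have key : ∀ g : ℝ ≃o ℝ, g 0 = 0 → g (1 / 2) = 1 / 2 → ∀ b : Bl κ, ∀ r ∈ Icc 0 (hh b),
      GG g (some (0, 0), c) (r • dir b) ∈ Phi κ ∧
        GG g.symm (some (0, 0), c) (GG g (some (0, 0), c) (r • dir b)) = r • dir b := by
    intro g h0 h3 b r hr
    by_cases hb : (some (0, 0), c) = b
    · subst hb
      rw [GG_self, GG_self, g.symm_apply_apply]
      have h4 : hh ((some (0, 0), c) : Bl κ) = 1 / 2 := xx_zero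
      rw [h4] at hr
      exact ⟨⟨_, _, ⟨h0 ▸ g.monotone hr.1, by rw [h4, ← h3]; exact g.monotone hr.2⟩, rfl⟩, rfl⟩
    · rw [GG_ne h0 hb, GG_ne (g.symm_apply_eq.2 h0.symm) hb]
      exact ⟨⟨b, r, hr, rfl⟩, rfl⟩
  have h3 := h2 0 (Or.inl le_rfl)
  have h4 := h2 (1 / 2) (Or.inr le_rfl)
  have hc := g.continuous
  have hc' := g.symm.continuous
  exact mk_homeo (G := GG g.symm (some (0, 0), c)) (by unfold GG; fun_prop)
    (by unfold GG; fun_prop) (key g h3 h4)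
    (key g.symm (g.symm_apply_eq.2 h3.symm) (g.symm_apply_eq.2 h4.symm)) _

noncomputable def rp (c : κ) : Fin 6 → Phi κ :=
  ![pt (none, c) 0 (by norm_num [hh]), pt (none, c) 1 (by norm_num [hh]),
    pt (none, c) (1 / 2) (by norm_num [hh]), pt (none, c) (3 / 8) (by norm_num [hh]),
    pt (some (0, 0), c) (1 / 2) (by norm_num [hh, xx_zero]),
    pt (some (0, 0), c) (1 / 4) (by norm_num [hh, xx_zero])]

lemma pow_pow' {r : ℝ} (h : 0 ≤ r) (m : ℤ) : (r ^ ((2 : ℝ) ^ (-m))) ^ ((2 : ℝ) ^ m) = r := by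
  simpa using pow_pow h (-m)

lemma pow_lt {r s : ℝ} (h : 0 ≤ r) (h1 : r < s) (m : ℤ) : r ^ ((2 : ℝ) ^ m) < s ^ ((2 : ℝ) ^ m) :=
  Real.rpow_lt_rpow h h1 (by positivity)

lemma cover (c : κ) (x : Phi κ) : ∃ i, ∃ h : Phi κ ≃ₜ Phi κ, h (rp c i) = x := by
  suffices ∃ i, Rel (rp c i).1 x.1 by
    obtain ⟨i, e, he⟩ := this
    exact ⟨i, e, Subtype.ext (he _ rfl)⟩
  obtain ⟨_, b, r, hr, rfl⟩ := x
  rcases hr.1.eq_or_lt with rfl | h0
  · exact ⟨0, Homeomorph.refl _, fun z hz => by simpa [rp, pt] using hz⟩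
  rcases b with ⟨_ | ⟨n, j⟩, d⟩
  · rcases (show r ≤ 1 from hr.2).eq_or_lt with rfl | h1
    · exact ⟨1, by simpa [rp, pt, pm] using rel_shift 0 0 0 c d (none, c) 1⟩
    obtain ⟨n, h2, h3⟩ := exists_xx h0 h1
    rcases h3.eq_or_lt with rfl | h3
    · refine ⟨2, ?_⟩
      have := rel_shift n 0 0 c d (none, c) (xx 0)
      rw [xx_pow, xx_zero] at this
      simpa [rp, pt, pm] using this
    · refine ⟨3, (rel_bump (none, c) (r := r ^ ((2 : ℝ) ^ (-n))) ⟨?_, ?_⟩).trans ?_⟩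
      · have := pow_lt (xx_pos _).le h2 (-n)
        rwa [xx_pow, add_neg_cancel_comm, xx_one] at this
      · have := pow_lt h0.le h3 (-n)
        rwa [xx_pow, add_neg_cancel, xx_zero] at this
      · have := rel_shift n 0 0 c d (none, c) (r ^ ((2 : ℝ) ^ (-n)))
        rw [pow_pow' h0.le] at this
        simpa [pm] using this
  · rcases (show r ≤ xx n from hr.2).eq_or_lt with rfl | h3
    · refine ⟨4, ?_⟩
      have := rel_shift n 0 j c d (some (0, 0), c) (xx 0)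
      rw [xx_pow, xx_zero] at this
      simpa [rp, pt, pm] using this
    · refine ⟨5, (rel_blade c (r := r ^ ((2 : ℝ) ^ (-n))) ⟨by positivity, ?_⟩).trans ?_⟩
      · have := pow_lt h0.le h3 (-n)
        rwa [xx_pow, add_neg_cancel, xx_zero] at this
      · have := rel_shift n 0 j c d (some (0, 0), c) (r ^ ((2 : ℝ) ^ (-n)))
        rw [pow_pow' h0.le] at this
        simpa [pm] using this

lemma top_map' {ι ι' : Type} {Φ : Set (V ι)} {Ψ : Set (V ι')} (h : Cone Φ) (h' : Cone Ψ)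
    (p : Fin 3 → Φ) (hp : ∀ i j, i ≠ j → NP (p i).1 (p j).1)
    (q : Fin 3 → Ψ) (hq : ∀ i j, i ≠ j → NP (q i).1 (q j).1) (e : Φ ≃ₜ Ψ) :
    e (top h) = top h' := by
  obtain ⟨γ, h1, h2⟩ := (ramX h p hp (top h)).2 rfl
  refine (ramX h' q hq _).1 ⟨fun i => e ∘ γ i, fun i => ⟨e.continuous.comp (h1 i).1,
    e.injective.comp (h1 i).2.1, congrArg e (h1 i).2.2⟩, fun i j hij => ?_⟩
  rw [range_comp, range_comp, ← image_inter e.injective, h2 i j hij, image_singleton]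

lemma free_map {X Y : Type} [TopologicalSpace X] [TopologicalSpace Y] (e : X ≃ₜ Y) {t x : X}
    (h : Free t x) : Free (e t) (e x) := by
  obtain ⟨U, h1, h2, h3⟩ := h
  exact ⟨e '' U, e.isOpenMap.image_mem_nhds h1, h2.image _ e.continuous.continuousOn,
    by simpa using h3⟩

variable [Finite κ] [Nonempty κ]

lemma top_eq {κ' : Type} [Finite κ'] [Nonempty κ'] (e : Phi κ ≃ₜ Phi κ') :
    e (top cone) = top cone := by
  obtain ⟨p, hp⟩ := exists_three (κ := κ)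
  obtain ⟨q, hq⟩ := exists_three (κ := κ')
  exact top_map' _ _ p hp q hq e

def code (x : Phi κ) : Prop × Prop × Prop × Prop :=
  (x = top cone, x ∈ Ends (Phi κ), Free (top cone) x, x ∈ Der (Ends (Phi κ)))

lemma code_map {κ' : Type} [Finite κ'] [Nonempty κ'] (e : Phi κ ≃ₜ Phi κ') (x : Phi κ) :
    code (e x) = code x := by
  simp only [code, Prod.mk.injEq, eq_iff_iff]
  refine ⟨by rw [← top_eq e, e.injective.eq_iff], ⟨fun h => by simpa using ends_map e.symm h,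
    fun h => ends_map e h⟩, ⟨fun h => by simpa [top_eq] using free_map e.symm h,
    fun h => by simpa [top_eq] using free_map e h⟩,
    ⟨fun h => by simpa using der_map e.symm (ends_map e.symm) h,
      fun h => der_map e (ends_map e) h⟩⟩

lemma pt_top {b : Bl κ} {r : ℝ} {h : r ∈ Icc 0 (hh b)} : pt b r h = top cone ↔ r = 0 := by
  simp +contextual [pt, top, Subtype.ext_iff, dir, Prod.ext_iff]

lemma distinct (c : κ) (i j : Fin 6) (h : ∃ h : Phi κ ≃ₜ Phi κ, h (rp c i) = rp c j) : i = j := by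
  obtain ⟨e, he⟩ := h
  have h1 := code_map e (rp c i)
  rw [he] at h1
  have a1 := mark_der c (h := by norm_num [hh])
  have a2 := not_der c (h := by norm_num [hh])
  have a3 := free_some (p := (0, 0)) (c := c) (r := 1 / 2) (by norm_num [hh, xx_zero]) (by norm_num)
  have a4 := free_some (p := (0, 0)) (c := c) (r := 1 / 4) (by norm_num [hh, xx_zero]) (by norm_num)
  fin_cases i <;> fin_cases j <;>
    simp only [code, rp, Prod.mk.injEq, eq_iff_iff, pt_top, mem_ends, Fin.zero_eta, Fin.mk_one,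
      Fin.reduceFinMk, Matrix.cons_val, not_free, a1, a2, a3, a4] at h1 ⊢ <;>
    norm_num [hh, xx_zero] at h1

theorem not_homeo (e : Phi Bool ≃ₜ Phi Unit) : False := by
  have key : ∀ c, e (en (none, c)) = en (none, ()) := by
    intro c
    have h1 := code_map e (en (none, c))
    obtain ⟨b, r, hr, h⟩ := (e (en (none, c))).2
    rw [show e (en (none, c)) = pt b r hr from Subtype.ext h.symm] at h1 ⊢
    simp only [code, Prod.mk.injEq, eq_iff_iff, en, mem_ends, not_free, iff_true, iff_false] at h1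
    obtain ⟨-, rfl, h2, -⟩ := h1
    rcases b with ⟨_ | p, d⟩
    · rfl
    · exact absurd (free_some _ (hh_pos _)) h2
  have h1 := e.injective ((key true).trans (key false).symm)
  simpa [(hh_pos _).ne'] using (dir_inj (congrArg Subtype.val h1)).2

end Pool.Agent.H.MP_2a55c9_gt
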